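import Pool.Agent.Y734.M.KSIX.Run

/-!
# Weights on the edges of `K₆`
-/

set_option autoImplicit false

namespace Pool.Agent.Y734.M.KSIX

open Pool.Agent.Y734.M

theorem evl_rep (i : ℕ) (x : ℕ → ℤ) : evl (List.replicate i 0 ++ [1]) x = x i := by
  induction i generalizing x with
  | zero => simp [evl]
  | succ i ih =>
    rw [List.replicate_succ, List.cons_append, evl, ih]
    simp

theorem hW_of_lt {n : ℕ} {W : Fin n → Fin n → List ℤ} {w : Fin n → Fin n → ℤ} {x : ℕ → ℤ}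
    (hWs : ∀ i j, W i j = W j i) (hw : Sy w) (h : ∀ i j, i < j → evl (W i j) x = w i j) :
    ∀ i j, i ≠ j → evl (W i j) x = w i j := by
  intro i j hij
  rcases lt_or_gt_of_ne hij with h1 | h1
  · exact h i j h1
  · rw [hWs, hw]
    exact h j i h1

theorem W6_symm (r : Fin 5 → Fin 5 → ℤ) (i j : Fin 6) : W6 r i j = W6 r j i := by
  unfold W6
  simp only [min_comm (i : ℕ) j, max_comm (i : ℕ) j]

/-- Classification of the solutions for six points in the normal form. -/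
theorem cls {r : Fin 5 → Fin 5 → ℤ} {S : List (List ℤ)} {D : List (Fd 6)}
    (hD : ∀ d ∈ D, Function.Injective d.f ∧ d.C = cfl (W6 r) d.f ∧
      (∀ b ∈ labels, b ∈ d.L ∨ alive [1] d.C b = false) ∧ (∀ b ∈ d.L, b ∈ labels))
    (hrun : srch (accS S) [1] D [] [] [] = true)
    (hS : ∀ v ∈ S, v.getD 0 0 = 0) {w : Fin 6 → Fin 6 → ℤ} (hw : Sy w) {K : ℤ}
    (hK : K ≠ 0) (h5 : ∀ (i j : Fin 6) (hi : (i : ℕ) < 5) (hj : (j : ℕ) < 5), i < j →
      w i j = 2 * r ⟨i, hi⟩ ⟨j, hj⟩ * K) (h0 : w 0 5 = 0) {E : (Fin 5 → Fin 6) → Prop}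
    (H : ∀ f : Fin 5 → Fin 6, Function.Injective f → ∃ b ∈ labels, Sat w E f b) :
    ∃ v ∈ S, ∀ i : Fin 6, (i : ℕ) < 5 → w i 5 = v.getD i 0 * K := by
  let x : ℕ → ℤ := fun t => if t = 0 then K else if h : t < 6 then w ⟨t, h⟩ 5 else 0
  have hW : ∀ i j, i ≠ j → evl (W6 r i j) x = w i j := by
    refine hW_of_lt (W6_symm r) hw fun i j hij => ?_
    have hij' : (i : ℕ) < j := hij
    unfold W6
    by_cases hj : (j : ℕ) < 5
    · rw [dif_pos ⟨by omega, by omega⟩]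
      simp only [min_eq_left hij'.le, max_eq_right hij'.le]
      rw [evl, evl, h5 i j (hij'.trans hj) hj hij]
      simp [x]
    · rw [dif_neg (by omega)]
      have hj' : j = 5 := Fin.ext (by have := j.2; change (j : ℕ) = 5; omega)
      subst hj'
      rw [min_eq_left hij'.le]
      by_cases hi : (i : ℕ) = 0
      · rw [if_pos hi, evl]
        have : i = 0 := Fin.ext hi
        rw [this, h0]
      · rw [if_neg hi, evl_rep]
        change (if (i : ℕ) = 0 then K else if h : (i : ℕ) < 6 then w ⟨i, h⟩ 5 else 0) = _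
        rw [if_neg hi, dif_pos i.2]
  have hx0 : x 0 = K := if_pos rfl
  have hN : evl [1] x ≠ 0 := by
    rw [evl, evl, hx0]
    simpa using hK
  refine srch_sound (acc := accS S) (E := E) hW hN ?_ D ?_ [] [] [] (by simp [Z]) (by simp)
    (by simp) hrun
  · intro B fs hB _ hacc
    unfold accS at hacc
    rw [List.any_eq_true] at hacc
    obtain ⟨v, hv, h1⟩ := hacc
    rw [List.all_eq_true] at h1
    refine ⟨v, hv, fun i hi => ?_⟩
    by_cases hi0 : (i : ℕ) = 0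
    · have : i = 0 := Fin.ext hi0
      rw [this, h0]
      have h2 := hS v hv
      change 0 = v.getD 0 0 * K
      rw [h2, zero_mul]
    · have h2 := isz_sound hB (h1 i (by
        simp only [List.mem_cons, List.not_mem_nil, or_false]
        omega))
      rw [evl_lin, evl_rep, evl, evl, hx0] at h2
      have h3 : x i = w i 5 := by
        change (if (i : ℕ) = 0 then K else if h : (i : ℕ) < 6 then w ⟨i, h⟩ 5 else 0) = _
        rw [if_neg hi0, dif_pos i.2]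
      rw [h3] at h2
      linarith
  · intro d hd
    obtain ⟨h1, h2, h3, h4⟩ := hD d hd
    exact ⟨h1, ⟨h2, h3, h4⟩, H d.f h1⟩

/-- the forms for an explicit solution -/
def Wv {n : ℕ} (r : Fin 5 → Fin 5 → ℤ) (v v' : List ℤ) (i j : Fin n) : List ℤ :=
  if h : min (i : ℕ) j < 5 ∧ max (i : ℕ) j < 5 then
    [2 * r ⟨min (i : ℕ) j, h.1⟩ ⟨max (i : ℕ) j, h.2⟩]
  else if max (i : ℕ) j = 5 then [v.getD (min (i : ℕ) j) 0]
  else if min (i : ℕ) j = 5 then [0, 1]
  else [v'.getD (min (i : ℕ) j) 0]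

theorem Wv_symm {n : ℕ} (r : Fin 5 → Fin 5 → ℤ) (v v' : List ℤ) (i j : Fin n) :
    Wv r v v' i j = Wv r v v' j i := by
  unfold Wv
  simp only [min_comm (i : ℕ) j, max_comm (i : ℕ) j]

/-- the data with all labels -/
def fdv {n : ℕ} (q : (Fin 5 → Fin n) × List (List ℤ)) : Fd n := ⟨q.1, q.2, labels⟩

theorem fdv_good {n : ℕ} {r : Fin 5 → Fin 5 → ℤ} {v v' : List ℤ}
    {q : (Fin 5 → Fin n) × List (List ℤ)} (h : q.2 = cfl (Wv r v v') q.1) (N : List ℤ) :
    (fdv q).Good (Wv r v v') N :=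
  ⟨h, fun _ hb => Or.inl hb, fun _ hb => hb⟩

theorem exists_perm {n : ℕ} {ι g : Fin 5 → Fin n} (hι : Function.Injective ι)
    (hg : Function.Injective g) : ∃ π : Equiv.Perm (Fin n), ∀ i, π (ι i) = g i := by
  classical
  let e : {x // x ∈ Set.range ι} ≃ {x // x ∈ Set.range g} :=
    (Equiv.ofInjective ι hι).symm.trans (Equiv.ofInjective g hg)
  refine ⟨e.extendSubtype, fun i => ?_⟩
  rw [e.extendSubtype_apply_of_mem _ ⟨i, rfl⟩]
  change ((Equiv.ofInjective g hg) ((Equiv.ofInjective ι hι).symm ⟨ι i, _⟩) : Fin n) = g i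
  have : (Equiv.ofInjective ι hι).symm ⟨ι i, ⟨i, rfl⟩⟩ = i := by
    rw [Equiv.symm_apply_eq]
    rfl
  rw [this]
  rfl

theorem nontriv {n : ℕ} (hn : 5 ≤ n) {e : Fin n → Fin n → ℤ} (h : ¬ Tri0 e) :
    ∃ f : Fin 5 → Fin n, Function.Injective f ∧ ¬ Tri0 (pull e f) := by
  unfold Tri0 at h
  push Not at h
  obtain ⟨q, hq, hne⟩ := h
  obtain ⟨y, hy⟩ : ∃ y, y ∉ Set.range q := by
    by_contra hc
    push Not at hc
    have h1 : Function.Surjective q := hc
    have h2 := Fintype.card_le_of_surjective q h1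
    rw [Fintype.card_fin, Fintype.card_fin] at h2
    omega
  refine ⟨Fin.snoc q y, ?_, fun hT => hne ?_⟩
  · rw [Fin.snoc_injective_iff]
    exact ⟨hq, hy⟩
  · have h1 := hT Fin.castSucc (Fin.castSucc_injective _)
    unfold pull at h1
    simp only [Fin.snoc_castSucc] at h1
    exact h1

theorem frame {n : ℕ} (hn : 5 ≤ n) {e : Fin n → Fin n → ℤ} (hnt : ¬ Tri0 e)
    {E : (Fin 5 → Fin n) → Prop} (H : ∀ f : Fin 5 → Fin n, Function.Injective f → Cond e E f) :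
    ∃ π : Equiv.Perm (Fin n), Ray rA (pull (pull e π) (Fin.castLE hn)) ∨
      ((Ray rB (pull (pull e π) (Fin.castLE hn)) ∨ Ray rC (pull (pull e π) (Fin.castLE hn))) ∧
        E (π ∘ Fin.castLE hn)) := by
  obtain ⟨f, hf, hf'⟩ := nontriv hn hnt
  rcases H f hf with h | ⟨σ, h⟩
  · exact absurd h hf'
  · obtain ⟨π, hπ⟩ := exists_perm (Fin.castLE_injective hn) (hf.comp σ.injective)
    refine ⟨π, ?_⟩
    have h1 : (π ∘ Fin.castLE hn) = f ∘ σ := funext hπ
    have h2 : pull (pull e π) (Fin.castLE hn) = pull e (f ∘ σ) := by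
      rw [← h1]
      rfl
    rw [h1, h2]
    exact h

/-- The normal form. -/
theorem gauge {n : ℕ} (hn : 5 ≤ n) {e : Fin n → Fin n → ℤ} (hs : Sy e) {r : Fin 5 → Fin 5 → ℤ}
    (h : Ray r (pull e (Fin.castLE hn))) : ∃ (K : ℤ) (w : Fin n → Fin n → ℤ), K ≠ 0 ∧ Sy w ∧
      (∀ (i j : Fin n) (hi : (i : ℕ) < 5) (hj : (j : ℕ) < 5), i < j →
        w i j = 2 * r ⟨i, hi⟩ ⟨j, hj⟩ * K) ∧
      (∀ j : Fin n, 5 ≤ (j : ℕ) → w ⟨0, by omega⟩ j = 0) ∧
      ∀ f : Fin 5 → Fin n, crl (pull w f) = (crl (pull e f)).map fun a => 2 * a := by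
  obtain ⟨k, s, hk, h⟩ := h
  let T : Fin n → ℤ := fun i => if h : (i : ℕ) < 5 then s ⟨i, h⟩ else
    2 * e ⟨0, by omega⟩ i - s 0
  refine ⟨k, fun i j => 2 * e i j - T i - T j, hk, fun i j => ?_, fun i j hi hj hij => ?_,
    fun j hj => ?_, fun f => ?_⟩
  · change 2 * e i j - T i - T j = 2 * e j i - T j - T i
    rw [hs i j]
    ring
  · have hij' : (i : ℕ) < j := hij
    have h1 := h ⟨i, hi⟩ ⟨j, hj⟩ (fun h => by
      rw [Fin.mk.injEq] at h
      omega)
    have h2 : pull e (Fin.castLE hn) ⟨i, hi⟩ ⟨j, hj⟩ = e i j := rfl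
    rw [h2] at h1
    have h3 : T i = s ⟨i, hi⟩ := dif_pos hi
    have h4 : T j = s ⟨j, hj⟩ := dif_pos hj
    change 2 * e i j - T i - T j = _
    rw [h3, h4, h1]
    ring
  · have h3 : T ⟨0, by omega⟩ = s 0 := dif_pos (by norm_num)
    have h4 : T j = 2 * e ⟨0, by omega⟩ j - s 0 := dif_neg (by omega)
    change 2 * e ⟨0, _⟩ j - T ⟨0, _⟩ - T j = 0
    rw [h3, h4]
    ring
  · unfold crl pull
    simp only [List.map_cons, List.map_nil, List.cons.injEq, and_true]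
    refine ⟨?_, ?_, ?_, ?_, ?_⟩ <;> ring

/-! ## Six points -/

/-- two involutions with the same pairs -/
def mt : List (Fin 6) → List (Fin 6) → Bool
  | [a, b, c, d, m], [a', b', c', d', m'] =>
    decide (a = a' ∧ b = b' ∧ c = c' ∧ d = d' ∧ Function.Injective ![a, b, c, d, m, m'])
  | _, _ => false

theorem mt_sound {E : (Fin 5 → Fin 6) → Prop} {p q : List (Fin 6)} (hp : EL E p) (hq : EL E q)
    (h : mt p q = true) : ∃ g : Fin 6 → Fin 6, Function.Injective g ∧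
      E ![g 0, g 1, g 2, g 3, g 4] ∧ E ![g 0, g 1, g 2, g 3, g 5] := by
  unfold mt at h
  split at h
  · rw [decide_eq_true_eq] at h
    obtain ⟨rfl, rfl, rfl, rfl, h⟩ := h
    exact ⟨_, h, hp, hq⟩
  · exact absurd h (by decide)

/-- acceptance for six points -/
def acc6 (_ : List (ℕ × List ℤ)) (fs : List (List (Fin 6))) : Bool :=
  fs.any fun p => fs.any fun q => mt p q

/-- the five-point subsets used for the solutions -/
def cases6A : List (List ℤ × List ((Fin 5 → Fin 6) × List (List ℤ))) := [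
  ([0, 0, -2, 0, -2], [(![0, 1, 2, 4, 5], [[0], [-2], [-2], [-4], [-2]]),
    (![0, 1, 2, 3, 5], [[-2], [-2], [-2], [-4], [0]])]),
  ([0, 0, 0, -2, -2], [(![0, 1, 3, 4, 5], [[0], [-2], [-2], [-4], [-2]]),
    (![0, 1, 2, 3, 5], [[-2], [-2], [0], [-2], [-2]])]),
  ([0, 4, 2, 2, 0], [(![0, 1, 3, 4, 5], [[0], [-2], [-2], [0], [-4]]),
    (![0, 1, 2, 4, 5], [[0], [-2], [-2], [0], [-4]])]),
  ([0, 0, 2, 2, 0], [(![1, 2, 3, 4, 5], [[0], [2], [0], [4], [0]]),
    (![0, 1, 2, 3, 5], [[-2], [-2], [2], [0], [2]])]),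
  ([0, 2, 0, 2, 2], [(![1, 2, 3, 4, 5], [[0], [2], [2], [2], [4]]),
    (![0, 1, 2, 4, 5], [[0], [-2], [-2], [-2], [0]])]),
  ([0, 2, 2, 0, 2], [(![1, 2, 3, 4, 5], [[0], [2], [-2], [0], [2]]),
    (![0, 1, 3, 4, 5], [[0], [-2], [-2], [-2], [0]])])]

/-- the five-point subsets used for the solutions -/
def cases6B : List (List ℤ × List ((Fin 5 → Fin 6) × List (List ℤ))) := [
  ([0, 0, 0, 0, -2], [(![0, 1, 2, 3, 5], [[0], [-4], [0], [-2], [-2]])]),
  ([0, 0, 0, 0, 2], [(![0, 1, 2, 3, 5], [[0], [-4], [0], [-2], [-2]])])]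

/-- the five-point subsets used for the solutions -/
def cases6C : List (List ℤ × List ((Fin 5 → Fin 6) × List (List ℤ))) := [
  ([0, 2, 2, 0, 0], [(![0, 1, 2, 3, 5], [[-4], [-2], [-2], [0], [-2]])]),
  ([0, 2, 2, 0, 2], [(![0, 1, 2, 3, 5], [[-4], [-2], [-2], [0], [-2]])]),
  ([0, 2, 2, 0, -2], [(![0, 1, 2, 3, 5], [[-4], [-2], [-2], [0], [-2]])])]

set_option maxRecDepth 100000 in
theorem fin6A : ∀ v ∈ solsA, v.getD 0 0 = 0 ∧ ∃ p ∈ cases6A, p.1 = v ∧
    (∀ q ∈ p.2, Function.Injective q.1 ∧ q.2 = cfl (Wv rA v []) q.1) ∧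
    srch acc6 [1] (p.2.map fdv) [] [] [] = true := by
  decide +kernel

set_option maxRecDepth 100000 in
theorem fin6B : ∀ v ∈ solsB, v.getD 0 0 = 0 ∧ ∃ p ∈ cases6B, p.1 = v ∧
    (∀ q ∈ p.2, Function.Injective q.1 ∧ q.2 = cfl (Wv rB v []) q.1) ∧
    srch acc6 [1] (p.2.map fdv) [] [] [[0, 1, 2, 3, 4]] = true := by
  decide +kernel

set_option maxRecDepth 100000 in
theorem fin6C : ∀ v ∈ solsC, v.getD 0 0 = 0 ∧ ∃ p ∈ cases6C, p.1 = v ∧
    (∀ q ∈ p.2, Function.Injective q.1 ∧ q.2 = cfl (Wv rC v []) q.1) ∧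
    srch acc6 [1] (p.2.map fdv) [] [] [[0, 1, 2, 3, 4]] = true := by
  decide +kernel

theorem six_of {r : Fin 5 → Fin 5 → ℤ} {S : List (List ℤ)} {D : List (Fd 6)}
    (hD : ∀ d ∈ D, Function.Injective d.f ∧ d.C = cfl (W6 r) d.f ∧
      (∀ b ∈ labels, b ∈ d.L ∨ alive [1] d.C b = false) ∧ (∀ b ∈ d.L, b ∈ labels))
    (hrun : srch (accS S) [1] D [] [] [] = true)
    {cs : List (List ℤ × List ((Fin 5 → Fin 6) × List (List ℤ)))} {init : List (List (Fin 6))}
    (hcs : ∀ v ∈ S, v.getD 0 0 = 0 ∧ ∃ p ∈ cs, p.1 = v ∧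
      (∀ q ∈ p.2, Function.Injective q.1 ∧ q.2 = cfl (Wv r v []) q.1) ∧
      srch acc6 [1] (p.2.map fdv) [] [] init = true)
    {e : Fin 6 → Fin 6 → ℤ} (hs : Sy e) {E : (Fin 5 → Fin 6) → Prop}
    (h1 : ∀ p : Fin 5 → Fin 6, E p → E ![p 3, p 1, p 2, p 0, p 4])
    (h2 : ∀ p : Fin 5 → Fin 6, E p → E ![p 1, p 0, p 3, p 2, p 4])
    (H : ∀ f : Fin 5 → Fin 6, Function.Injective f → Cond e E f)
    (hray : Ray r (pull e (Fin.castLE (by norm_num)))) (hinit : ∀ l ∈ init, EL E l) :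
    ∃ g : Fin 6 → Fin 6, Function.Injective g ∧
      E ![g 0, g 1, g 2, g 3, g 4] ∧ E ![g 0, g 1, g 2, g 3, g 5] := by
  obtain ⟨K, w, hK, hw, h5, h0, hcrl⟩ := gauge (by norm_num) hs hray
  have hSat : ∀ f : Fin 5 → Fin 6, Function.Injective f → ∃ b ∈ labels, Sat w E f b :=
    fun f hf => sat_of hs h1 h2 (hcrl f) (H f hf)
  obtain ⟨v, hv, hv'⟩ := cls hD hrun (fun v hv => (hcs v hv).1) hw hK h5 (h0 5 le_rfl) hSat
  obtain ⟨_, p, _, hpv, hpf, hsr⟩ := hcs v hv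
  let x : ℕ → ℤ := fun t => if t = 0 then K else 0
  have hW : ∀ i j : Fin 6, i ≠ j → evl (Wv r v [] i j) x = w i j := by
    refine hW_of_lt (Wv_symm r v []) hw fun i j hij => ?_
    have hij' : (i : ℕ) < j := hij
    unfold Wv
    by_cases hj : (j : ℕ) < 5
    · rw [dif_pos ⟨by omega, by omega⟩]
      simp only [min_eq_left hij'.le, max_eq_right hij'.le]
      rw [evl, evl, h5 i j (hij'.trans hj) hj hij]
      simp [x]
    · rw [dif_neg (by omega)]
      have hj' : j = 5 := Fin.ext (by have := j.2; change (j : ℕ) = 5; omega)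
      subst hj'
      rw [min_eq_left hij'.le, max_eq_right hij'.le,
        if_pos (show ((5 : Fin 6) : ℕ) = 5 from rfl), evl, evl, hv' i hij']
      simp [x]
  refine srch_sound (acc := acc6) (E := E) (x := x) hW (N := [1]) ?_ ?_ (p.2.map fdv) ?_
    [] [] init (by simp [Z]) (by simp) hinit hsr
  · simpa [evl, x] using hK
  · intro B fs _ hfs hacc
    unfold acc6 at hacc
    rw [List.any_eq_true] at hacc
    obtain ⟨a, ha, h3⟩ := hacc
    rw [List.any_eq_true] at h3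
    obtain ⟨b, hb, h4⟩ := h3
    exact mt_sound (hfs a ha) (hfs b hb) h4
  · intro d hd
    rw [List.mem_map] at hd
    obtain ⟨q, hq, rfl⟩ := hd
    exact ⟨(hpf q hq).1, fdv_good (hpf q hq).2 [1], hSat q.1 (hpf q hq).1⟩

/-- Job KSIX. -/
theorem ksix : KsixStmt := by
  intro e E hs hnt h1 h2 H
  have hC : ∀ f : Fin 5 → Fin 6, Function.Injective f → Cond e E f := H
  obtain ⟨π, hπ⟩ := frame (by norm_num) hnt hC
  have hs' : Sy (pull e π) := fun i j => hs _ _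
  let E' : (Fin 5 → Fin 6) → Prop := fun p => E (π ∘ p)
  have hvec : ∀ a b c d m : Fin 6, π ∘ ![a, b, c, d, m] = ![π a, π b, π c, π d, π m] := by
    intro a b c d m
    funext i
    fin_cases i <;> rfl
  have h1' : ∀ p : Fin 5 → Fin 6, E' p → E' ![p 3, p 1, p 2, p 0, p 4] := by
    intro p hp
    change E (π ∘ _)
    rw [hvec]
    exact h1 _ hp
  have h2' : ∀ p : Fin 5 → Fin 6, E' p → E' ![p 1, p 0, p 3, p 2, p 4] := by
    intro p hp
    change E (π ∘ _)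
    rw [hvec]
    exact h2 _ hp
  have hC' : ∀ f : Fin 5 → Fin 6, Function.Injective f → Cond (pull e π) E' f :=
    fun f hf => hC (π ∘ f) (π.injective.comp hf)
  have key : ∃ g : Fin 6 → Fin 6, Function.Injective g ∧
      E' ![g 0, g 1, g 2, g 3, g 4] ∧ E' ![g 0, g 1, g 2, g 3, g 5] := by
    have hE0 : E (π ∘ Fin.castLE (by norm_num)) → ∀ l ∈ [[0, 1, 2, 3, 4]], EL E' l := by
      intro hE l hl
      rw [List.mem_singleton] at hl
      subst hl
      change E (π ∘ ![0, 1, 2, 3, 4])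
      have : (![0, 1, 2, 3, 4] : Fin 5 → Fin 6) = Fin.castLE (by norm_num) := by
        funext i
        fin_cases i <;> rfl
      rw [this]
      exact hE
    rcases hπ with hA | ⟨hB | hC, hE⟩
    · exact six_of dataA_ok runA fin6A hs' h1' h2' hC' hA (by simp)
    · exact six_of dataB_ok runB fin6B hs' h1' h2' hC' hB (hE0 hE)
    · exact six_of dataC_ok runC fin6C hs' h1' h2' hC' hC (hE0 hE)
  obtain ⟨g, hg, hg1, hg2⟩ := key
  refine ⟨π ∘ g, π.injective.comp hg, ?_, ?_⟩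
  · change E (π ∘ _) at hg1
    rw [hvec] at hg1
    exact hg1
  · change E (π ∘ _) at hg2
    rw [hvec] at hg2
    exact hg2

end Pool.Agent.Y734.M.KSIX
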