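import Pool.Agent.Y734.M.KSIX.Tool

/-!
# Weights on the edges of `K₆` and `K₇`: the searches
-/

set_option autoImplicit false

namespace Pool.Agent.Y734.M.KSIX

open Pool.Agent.Y734.M

/-- the forms of the weights of six points -/
def W6 (r : Fin 5 → Fin 5 → ℤ) (i j : Fin 6) : List ℤ :=
  if h : min (i : ℕ) j < 5 ∧ max (i : ℕ) j < 5 then
    [2 * r ⟨min (i : ℕ) j, h.1⟩ ⟨max (i : ℕ) j, h.2⟩]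
  else if min (i : ℕ) j = 0 then [] else List.replicate (min (i : ℕ) j) 0 ++ [1]

/-- acceptance: the solution is in the list -/
def accS (S : List (List ℤ)) (B : List (ℕ × List ℤ)) (_ : List (List (Fin 6))) : Bool :=
  S.any fun v => [1, 2, 3, 4].all fun i =>
    isz B (lin 1 (-(v.getD i 0)) (List.replicate i 0 ++ [1]) [1])

/-- the solutions -/
def solsA : List (List ℤ) := [[0, 0, -2, 0, -2], [0, 0, 0, -2, -2], [0, 4, 2, 2, 0], [0, 0, 2, 2, 0], [0, 2, 0, 2, 2], [0, 2, 2, 0, 2]]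

/-- the data of the search -/
def dataA : List (Fd 6) := [
  ⟨![1, 2, 3, 4, 5],
    [[0], [2], [0, 0, -1, 1], [2, -1, 0, 1], [2, 0, -1, 0, 1]], [
    ⟨[0, 1, 1, 1, 1], 1, true, []⟩,
    ⟨[0, 1, -1, 0, 0], 1, true, []⟩,
    ⟨[0, 1, 0, 0, 0], 1, true, []⟩,
    ⟨[0, 1, 0, 1, 1], 1, true, []⟩,
    ⟨[0, 2, 0, 1, 1], 1, true, [0, 1, 2, 3, 4]⟩,
    ⟨[0, 1, 0, 2, 0], 1, true, [0, 1, 2, 4, 3]⟩,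
    ⟨[0, 1, 1, 0, 2], 1, true, [0, 1, 4, 3, 2]⟩,
    ⟨[0, 1, -1, -1, 1], 1, true, [0, 2, 4, 3, 1]⟩,
    ⟨[0, 1, 0, 1, -1], 1, true, [1, 3, 4, 2, 0]⟩,
    ⟨[0, 1, 1, 2, 1], 1, true, [0, 1, 4, 2, 3]⟩,
    ⟨[0, 1, -1, 1, 0], 1, true, [0, 2, 4, 1, 3]⟩,
    ⟨[0, 1, 1, 1, 2], 1, true, [0, 1, 3, 4, 2]⟩,
    ⟨[0, 1, -1, 0, 1], 1, true, [0, 2, 3, 4, 1]⟩,
    ⟨[0, 1, 1, 0, 1], 1, true, [0, 3, 4, 1, 2]⟩,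
    ⟨[0, 1, -1, -1, 0], 1, true, [0, 3, 4, 2, 1]⟩,
    ⟨[0, 1, 1, 1, 0], 1, true, [1, 2, 3, 4, 0]⟩,
    ⟨[0, 1, -1, 0, -1], 1, true, [1, 2, 4, 3, 0]⟩]⟩,
  ⟨![0, 1, 3, 4, 5],
    [[0], [-2], [0, -1, 0, 1], [-2, 0, 0, 1], [0, -1, 0, 0, 1]], [
    ⟨[0, 1, 1, 1, 1], 1, true, []⟩,
    ⟨[0, 1, -1, 0, 0], 1, true, []⟩,
    ⟨[0, 1, 0, 0, 0], 1, true, []⟩,
    ⟨[0, 1, 0, 1, 1], 1, true, []⟩,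
    ⟨[0, 2, 0, 1, 1], 1, true, [0, 1, 2, 3, 4]⟩,
    ⟨[0, 1, 0, 2, 0], 1, true, [0, 1, 2, 4, 3]⟩,
    ⟨[0, 1, 1, 0, 2], 1, true, [0, 1, 4, 3, 2]⟩,
    ⟨[0, 1, -1, -1, 1], 1, true, [0, 2, 4, 3, 1]⟩,
    ⟨[0, 1, 0, 1, -1], 1, true, [1, 3, 4, 2, 0]⟩,
    ⟨[0, 1, 1, 2, 1], 1, true, [0, 1, 4, 2, 3]⟩,
    ⟨[0, 1, -1, 1, 0], 1, true, [0, 2, 4, 1, 3]⟩,
    ⟨[0, 1, 1, 1, 2], 1, true, [0, 1, 3, 4, 2]⟩,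
    ⟨[0, 1, -1, 0, 1], 1, true, [0, 2, 3, 4, 1]⟩,
    ⟨[0, 1, 1, 0, 1], 1, true, [0, 3, 4, 1, 2]⟩,
    ⟨[0, 1, -1, -1, 0], 1, true, [0, 3, 4, 2, 1]⟩,
    ⟨[0, 1, 1, 1, 0], 1, true, [1, 2, 3, 4, 0]⟩,
    ⟨[0, 1, -1, 0, -1], 1, true, [1, 2, 4, 3, 0]⟩]⟩,
  ⟨![0, 1, 2, 4, 5],
    [[0], [-2], [0, -1, 1], [-2, 0, 1], [0, -1, 0, 0, 1]], [
    ⟨[0, 1, 1, 1, 1], 1, true, []⟩,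
    ⟨[0, 1, -1, 0, 0], 1, true, []⟩,
    ⟨[0, 1, 0, 0, 0], 1, true, []⟩,
    ⟨[0, 1, 0, 1, 1], 1, true, []⟩,
    ⟨[0, 2, 0, 1, 1], 1, true, [0, 1, 2, 3, 4]⟩,
    ⟨[0, 1, 0, 2, 0], 1, true, [0, 1, 2, 4, 3]⟩,
    ⟨[0, 1, 1, 0, 2], 1, true, [0, 1, 4, 3, 2]⟩,
    ⟨[0, 1, -1, -1, 1], 1, true, [0, 2, 4, 3, 1]⟩,
    ⟨[0, 1, 0, 1, -1], 1, true, [1, 3, 4, 2, 0]⟩,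
    ⟨[0, 1, 1, 2, 1], 1, true, [0, 1, 4, 2, 3]⟩,
    ⟨[0, 1, -1, 1, 0], 1, true, [0, 2, 4, 1, 3]⟩,
    ⟨[0, 1, 1, 1, 2], 1, true, [0, 1, 3, 4, 2]⟩,
    ⟨[0, 1, -1, 0, 1], 1, true, [0, 2, 3, 4, 1]⟩,
    ⟨[0, 1, 1, 0, 1], 1, true, [0, 3, 4, 1, 2]⟩,
    ⟨[0, 1, -1, -1, 0], 1, true, [0, 3, 4, 2, 1]⟩,
    ⟨[0, 1, 1, 1, 0], 1, true, [1, 2, 3, 4, 0]⟩,
    ⟨[0, 1, -1, 0, -1], 1, true, [1, 2, 4, 3, 0]⟩]⟩,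
  ⟨![0, 1, 2, 3, 5],
    [[-2], [-2], [0, -1, 1], [-2, 0, 1], [0, -1, 0, 1]], [
    ⟨[1, 1, 0, 1, 0], 0, true, []⟩,
    ⟨[1, 1, 1, 1, 0], 0, true, []⟩,
    ⟨[1, 1, 0, 0, 1], 0, true, []⟩,
    ⟨[1, 1, 1, 0, 1], 0, true, []⟩,
    ⟨[2, 2, 1, 1, 1], 0, true, [0, 2, 3, 1, 4]⟩,
    ⟨[1, 1, 0, -1, 0], 0, true, [0, 2, 3, 4, 1]⟩,
    ⟨[1, 1, 2, 2, 1], 0, true, [0, 2, 4, 1, 3]⟩,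
    ⟨[1, 1, 1, 1, 2], 0, true, [0, 3, 4, 1, 2]⟩,
    ⟨[1, 1, -1, 0, -1], 0, true, [1, 2, 3, 4, 0]⟩,
    ⟨[1, 1, 2, 1, 1], 0, true, [0, 1, 2, 4, 3]⟩,
    ⟨[1, 1, 1, 0, 2], 0, true, [0, 1, 3, 4, 2]⟩,
    ⟨[1, 1, 1, 0, 0], 0, true, [0, 2, 4, 3, 1]⟩,
    ⟨[1, 1, 0, -1, 1], 0, true, [0, 3, 4, 2, 1]⟩,
    ⟨[1, 1, 1, 2, 0], 0, true, [0, 1, 4, 2, 3]⟩,
    ⟨[1, 1, 0, 1, 1], 0, true, [0, 1, 4, 3, 2]⟩,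
    ⟨[1, 1, 0, 1, -1], 0, true, [1, 2, 4, 3, 0]⟩,
    ⟨[1, 1, -1, 0, 0], 0, true, [1, 3, 4, 2, 0]⟩]⟩,
  ⟨![0, 2, 3, 4, 5],
    [[0], [0], [0, 0, -1, 1], [0, 0, 0, 1], [0, 0, -1, 0, 1]], [
    ⟨[0, 0, 0, 0, 0], 0, false, []⟩,
    ⟨[0, 0, 0, 1, -1], 3, true, []⟩,
    ⟨[0, 0, 1, 0, 0], 2, true, []⟩,
    ⟨[0, 0, 1, 1, 1], 2, true, []⟩]⟩]

set_option maxRecDepth 100000 in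
theorem dataA_ok : ∀ d ∈ dataA, Function.Injective d.f ∧ d.C = cfl (W6 rA) d.f ∧
    (∀ b ∈ labels, b ∈ d.L ∨ alive [1] d.C b = false) ∧ (∀ b ∈ d.L, b ∈ labels) := by
  decide +kernel

set_option maxRecDepth 100000 in
theorem runA : srch (accS solsA) [1] dataA [] [] [] = true := by decide +kernel

/-- the solutions -/
def solsB : List (List ℤ) := [[0, 0, 0, 0, -2], [0, 0, 0, 0, 2]]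

/-- the data of the search -/
def dataB : List (Fd 6) := [
  ⟨![1, 2, 3, 4, 5],
    [[2], [2], [2, 0, -1, 1], [2, -1, 0, 1], [2, 0, -1, 0, 1]], [
    ⟨[1, 1, 0, 1, 0], 0, true, []⟩,
    ⟨[1, 1, 1, 1, 0], 0, true, []⟩,
    ⟨[1, 1, 0, 0, 1], 0, true, []⟩,
    ⟨[1, 1, 1, 0, 1], 0, true, []⟩,
    ⟨[2, 2, 1, 1, 1], 0, true, [0, 2, 3, 1, 4]⟩,
    ⟨[1, 1, 0, -1, 0], 0, true, [0, 2, 3, 4, 1]⟩,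
    ⟨[1, 1, 2, 2, 1], 0, true, [0, 2, 4, 1, 3]⟩,
    ⟨[1, 1, 1, 1, 2], 0, true, [0, 3, 4, 1, 2]⟩,
    ⟨[1, 1, -1, 0, -1], 0, true, [1, 2, 3, 4, 0]⟩,
    ⟨[1, 1, 2, 1, 1], 0, true, [0, 1, 2, 4, 3]⟩,
    ⟨[1, 1, 1, 0, 2], 0, true, [0, 1, 3, 4, 2]⟩,
    ⟨[1, 1, 1, 0, 0], 0, true, [0, 2, 4, 3, 1]⟩,
    ⟨[1, 1, 0, -1, 1], 0, true, [0, 3, 4, 2, 1]⟩,
    ⟨[1, 1, 1, 2, 0], 0, true, [0, 1, 4, 2, 3]⟩,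
    ⟨[1, 1, 0, 1, 1], 0, true, [0, 1, 4, 3, 2]⟩,
    ⟨[1, 1, 0, 1, -1], 0, true, [1, 2, 4, 3, 0]⟩,
    ⟨[1, 1, -1, 0, 0], 0, true, [1, 3, 4, 2, 0]⟩]⟩,
  ⟨![0, 2, 3, 4, 5],
    [[-2], [0], [-2, 0, -1, 1], [0, 0, 0, 1], [0, 0, -1, 0, 1]], [
    ⟨[1, 0, 1, 0, 1], 0, true, []⟩,
    ⟨[1, 0, 0, -1, 0], 0, true, []⟩,
    ⟨[1, 0, 0, 0, -1], 0, true, []⟩,
    ⟨[1, 0, 1, 1, 0], 0, true, []⟩,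
    ⟨[2, 0, 1, 0, 0], 0, true, [0, 1, 3, 2, 4]⟩,
    ⟨[1, 0, 0, 1, 0], 0, true, [0, 1, 3, 4, 2]⟩,
    ⟨[1, 0, 2, 0, 1], 0, true, [0, 1, 4, 2, 3]⟩,
    ⟨[1, 0, 1, 0, -1], 0, true, [0, 3, 4, 2, 1]⟩,
    ⟨[1, 0, -1, -1, 0], 0, true, [1, 2, 4, 3, 0]⟩,
    ⟨[1, 0, 1, 1, 1], 0, true, [0, 1, 4, 3, 2]⟩,
    ⟨[1, 0, 2, 1, 1], 0, true, [0, 1, 2, 4, 3]⟩,
    ⟨[1, 0, 1, 1, -1], 0, true, [0, 2, 3, 4, 1]⟩,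
    ⟨[1, 0, 0, 1, -1], 0, true, [0, 3, 4, 1, 2]⟩,
    ⟨[1, 0, 1, -1, 1], 0, true, [0, 2, 4, 1, 3]⟩,
    ⟨[1, 0, 0, -1, -1], 0, true, [0, 2, 4, 3, 1]⟩,
    ⟨[1, 0, 0, -1, 1], 0, true, [1, 2, 3, 4, 0]⟩,
    ⟨[1, 0, -1, -1, -1], 0, true, [1, 3, 4, 2, 0]⟩]⟩,
  ⟨![0, 1, 3, 4, 5],
    [[-2], [0], [-2, -1, 0, 1], [0, 0, 0, 1], [0, -1, 0, 0, 1]], [
    ⟨[1, 0, 1, 0, 1], 0, true, []⟩,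
    ⟨[1, 0, 0, -1, 0], 0, true, []⟩,
    ⟨[1, 0, 0, 0, -1], 0, true, []⟩,
    ⟨[1, 0, 1, 1, 0], 0, true, []⟩,
    ⟨[2, 0, 1, 0, 0], 0, true, [0, 1, 3, 2, 4]⟩,
    ⟨[1, 0, 0, 1, 0], 0, true, [0, 1, 3, 4, 2]⟩,
    ⟨[1, 0, 2, 0, 1], 0, true, [0, 1, 4, 2, 3]⟩,
    ⟨[1, 0, 1, 0, -1], 0, true, [0, 3, 4, 2, 1]⟩,
    ⟨[1, 0, -1, -1, 0], 0, true, [1, 2, 4, 3, 0]⟩,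
    ⟨[1, 0, 1, 1, 1], 0, true, [0, 1, 4, 3, 2]⟩,
    ⟨[1, 0, 2, 1, 1], 0, true, [0, 1, 2, 4, 3]⟩,
    ⟨[1, 0, 1, 1, -1], 0, true, [0, 2, 3, 4, 1]⟩,
    ⟨[1, 0, 0, 1, -1], 0, true, [0, 3, 4, 1, 2]⟩,
    ⟨[1, 0, 1, -1, 1], 0, true, [0, 2, 4, 1, 3]⟩,
    ⟨[1, 0, 0, -1, -1], 0, true, [0, 2, 4, 3, 1]⟩,
    ⟨[1, 0, 0, -1, 1], 0, true, [1, 2, 3, 4, 0]⟩,
    ⟨[1, 0, -1, -1, -1], 0, true, [1, 3, 4, 2, 0]⟩]⟩,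
  ⟨![0, 1, 2, 4, 5],
    [[0], [-2], [0, -1, 1], [-2, 0, 1], [0, -1, 0, 0, 1]], [
    ⟨[0, 1, 1, 1, 1], 1, true, []⟩,
    ⟨[0, 1, -1, 0, 0], 1, true, []⟩,
    ⟨[0, 1, 0, 0, 0], 1, true, []⟩,
    ⟨[0, 1, 0, 1, 1], 1, true, []⟩,
    ⟨[0, 2, 0, 1, 1], 1, true, [0, 1, 2, 3, 4]⟩,
    ⟨[0, 1, 0, 2, 0], 1, true, [0, 1, 2, 4, 3]⟩,
    ⟨[0, 1, 1, 0, 2], 1, true, [0, 1, 4, 3, 2]⟩,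
    ⟨[0, 1, -1, -1, 1], 1, true, [0, 2, 4, 3, 1]⟩,
    ⟨[0, 1, 0, 1, -1], 1, true, [1, 3, 4, 2, 0]⟩,
    ⟨[0, 1, 1, 2, 1], 1, true, [0, 1, 4, 2, 3]⟩,
    ⟨[0, 1, -1, 1, 0], 1, true, [0, 2, 4, 1, 3]⟩,
    ⟨[0, 1, 1, 1, 2], 1, true, [0, 1, 3, 4, 2]⟩,
    ⟨[0, 1, -1, 0, 1], 1, true, [0, 2, 3, 4, 1]⟩,
    ⟨[0, 1, 1, 0, 1], 1, true, [0, 3, 4, 1, 2]⟩,
    ⟨[0, 1, -1, -1, 0], 1, true, [0, 3, 4, 2, 1]⟩,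
    ⟨[0, 1, 1, 1, 0], 1, true, [1, 2, 3, 4, 0]⟩,
    ⟨[0, 1, -1, 0, -1], 1, true, [1, 2, 4, 3, 0]⟩]⟩,
  ⟨![0, 1, 2, 3, 5],
    [[0], [-4], [0, -1, 1], [-2, 0, 1], [-2, -1, 0, 1]], [
    ⟨[0, 1, 1, 1, 1], 1, true, []⟩,
    ⟨[0, 1, -1, 0, 0], 1, true, []⟩,
    ⟨[0, 1, 0, 0, 0], 1, true, []⟩,
    ⟨[0, 1, 0, 1, 1], 1, true, []⟩,
    ⟨[0, 2, 0, 1, 1], 1, true, [0, 1, 2, 3, 4]⟩,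
    ⟨[0, 1, 0, 2, 0], 1, true, [0, 1, 2, 4, 3]⟩,
    ⟨[0, 1, 1, 0, 2], 1, true, [0, 1, 4, 3, 2]⟩,
    ⟨[0, 1, -1, -1, 1], 1, true, [0, 2, 4, 3, 1]⟩,
    ⟨[0, 1, 0, 1, -1], 1, true, [1, 3, 4, 2, 0]⟩,
    ⟨[0, 1, 1, 2, 1], 1, true, [0, 1, 4, 2, 3]⟩,
    ⟨[0, 1, -1, 1, 0], 1, true, [0, 2, 4, 1, 3]⟩,
    ⟨[0, 1, 1, 1, 2], 1, true, [0, 1, 3, 4, 2]⟩,
    ⟨[0, 1, -1, 0, 1], 1, true, [0, 2, 3, 4, 1]⟩,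
    ⟨[0, 1, 1, 0, 1], 1, true, [0, 3, 4, 1, 2]⟩,
    ⟨[0, 1, -1, -1, 0], 1, true, [0, 3, 4, 2, 1]⟩,
    ⟨[0, 1, 1, 1, 0], 1, true, [1, 2, 3, 4, 0]⟩,
    ⟨[0, 1, -1, 0, -1], 1, true, [1, 2, 4, 3, 0]⟩]⟩]

set_option maxRecDepth 100000 in
theorem dataB_ok : ∀ d ∈ dataB, Function.Injective d.f ∧ d.C = cfl (W6 rB) d.f ∧
    (∀ b ∈ labels, b ∈ d.L ∨ alive [1] d.C b = false) ∧ (∀ b ∈ d.L, b ∈ labels) := by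
  decide +kernel

set_option maxRecDepth 100000 in
theorem runB : srch (accS solsB) [1] dataB [] [] [] = true := by decide +kernel

/-- the solutions -/
def solsC : List (List ℤ) := [[0, 2, 2, 0, 0], [0, 2, 2, 0, 2], [0, 2, 2, 0, -2]]

/-- the data of the search -/
def dataC : List (Fd 6) := [
  ⟨![1, 2, 3, 4, 5],
    [[0], [2], [0, 0, -1, 1], [2, -1, 0, 1], [2, 0, -1, 0, 1]], [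
    ⟨[0, 1, 1, 1, 1], 1, true, []⟩,
    ⟨[0, 1, -1, 0, 0], 1, true, []⟩,
    ⟨[0, 1, 0, 0, 0], 1, true, []⟩,
    ⟨[0, 1, 0, 1, 1], 1, true, []⟩,
    ⟨[0, 2, 0, 1, 1], 1, true, [0, 1, 2, 3, 4]⟩,
    ⟨[0, 1, 0, 2, 0], 1, true, [0, 1, 2, 4, 3]⟩,
    ⟨[0, 1, 1, 0, 2], 1, true, [0, 1, 4, 3, 2]⟩,
    ⟨[0, 1, -1, -1, 1], 1, true, [0, 2, 4, 3, 1]⟩,
    ⟨[0, 1, 0, 1, -1], 1, true, [1, 3, 4, 2, 0]⟩,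
    ⟨[0, 1, 1, 2, 1], 1, true, [0, 1, 4, 2, 3]⟩,
    ⟨[0, 1, -1, 1, 0], 1, true, [0, 2, 4, 1, 3]⟩,
    ⟨[0, 1, 1, 1, 2], 1, true, [0, 1, 3, 4, 2]⟩,
    ⟨[0, 1, -1, 0, 1], 1, true, [0, 2, 3, 4, 1]⟩,
    ⟨[0, 1, 1, 0, 1], 1, true, [0, 3, 4, 1, 2]⟩,
    ⟨[0, 1, -1, -1, 0], 1, true, [0, 3, 4, 2, 1]⟩,
    ⟨[0, 1, 1, 1, 0], 1, true, [1, 2, 3, 4, 0]⟩,
    ⟨[0, 1, -1, 0, -1], 1, true, [1, 2, 4, 3, 0]⟩]⟩,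
  ⟨![0, 2, 3, 4, 5],
    [[2], [2], [2, 0, -1, 1], [2, 0, 0, 1], [2, 0, -1, 0, 1]], [
    ⟨[1, 1, 0, 1, 0], 0, true, []⟩,
    ⟨[1, 1, 1, 1, 0], 0, true, []⟩,
    ⟨[1, 1, 0, 0, 1], 0, true, []⟩,
    ⟨[1, 1, 1, 0, 1], 0, true, []⟩,
    ⟨[2, 2, 1, 1, 1], 0, true, [0, 2, 3, 1, 4]⟩,
    ⟨[1, 1, 0, -1, 0], 0, true, [0, 2, 3, 4, 1]⟩,
    ⟨[1, 1, 2, 2, 1], 0, true, [0, 2, 4, 1, 3]⟩,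
    ⟨[1, 1, 1, 1, 2], 0, true, [0, 3, 4, 1, 2]⟩,
    ⟨[1, 1, -1, 0, -1], 0, true, [1, 2, 3, 4, 0]⟩,
    ⟨[1, 1, 2, 1, 1], 0, true, [0, 1, 2, 4, 3]⟩,
    ⟨[1, 1, 1, 0, 2], 0, true, [0, 1, 3, 4, 2]⟩,
    ⟨[1, 1, 1, 0, 0], 0, true, [0, 2, 4, 3, 1]⟩,
    ⟨[1, 1, 0, -1, 1], 0, true, [0, 3, 4, 2, 1]⟩,
    ⟨[1, 1, 1, 2, 0], 0, true, [0, 1, 4, 2, 3]⟩,
    ⟨[1, 1, 0, 1, 1], 0, true, [0, 1, 4, 3, 2]⟩,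
    ⟨[1, 1, 0, 1, -1], 0, true, [1, 2, 4, 3, 0]⟩,
    ⟨[1, 1, -1, 0, 0], 0, true, [1, 3, 4, 2, 0]⟩]⟩,
  ⟨![0, 1, 3, 4, 5],
    [[0], [-2], [0, -1, 0, 1], [-2, 0, 0, 1], [0, -1, 0, 0, 1]], [
    ⟨[0, 1, 1, 1, 1], 1, true, []⟩,
    ⟨[0, 1, -1, 0, 0], 1, true, []⟩,
    ⟨[0, 1, 0, 0, 0], 1, true, []⟩,
    ⟨[0, 1, 0, 1, 1], 1, true, []⟩,
    ⟨[0, 2, 0, 1, 1], 1, true, [0, 1, 2, 3, 4]⟩,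
    ⟨[0, 1, 0, 2, 0], 1, true, [0, 1, 2, 4, 3]⟩,
    ⟨[0, 1, 1, 0, 2], 1, true, [0, 1, 4, 3, 2]⟩,
    ⟨[0, 1, -1, -1, 1], 1, true, [0, 2, 4, 3, 1]⟩,
    ⟨[0, 1, 0, 1, -1], 1, true, [1, 3, 4, 2, 0]⟩,
    ⟨[0, 1, 1, 2, 1], 1, true, [0, 1, 4, 2, 3]⟩,
    ⟨[0, 1, -1, 1, 0], 1, true, [0, 2, 4, 1, 3]⟩,
    ⟨[0, 1, 1, 1, 2], 1, true, [0, 1, 3, 4, 2]⟩,
    ⟨[0, 1, -1, 0, 1], 1, true, [0, 2, 3, 4, 1]⟩,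
    ⟨[0, 1, 1, 0, 1], 1, true, [0, 3, 4, 1, 2]⟩,
    ⟨[0, 1, -1, -1, 0], 1, true, [0, 3, 4, 2, 1]⟩,
    ⟨[0, 1, 1, 1, 0], 1, true, [1, 2, 3, 4, 0]⟩,
    ⟨[0, 1, -1, 0, -1], 1, true, [1, 2, 4, 3, 0]⟩]⟩,
  ⟨![0, 1, 2, 4, 5],
    [[-2], [-2], [-2, -1, 1], [-2, 0, 1], [0, -1, 0, 0, 1]], [
    ⟨[1, 1, 0, 1, 0], 0, true, []⟩,
    ⟨[1, 1, 1, 1, 0], 0, true, []⟩,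
    ⟨[1, 1, 0, 0, 1], 0, true, []⟩,
    ⟨[1, 1, 1, 0, 1], 0, true, []⟩,
    ⟨[2, 2, 1, 1, 1], 0, true, [0, 2, 3, 1, 4]⟩,
    ⟨[1, 1, 0, -1, 0], 0, true, [0, 2, 3, 4, 1]⟩,
    ⟨[1, 1, 2, 2, 1], 0, true, [0, 2, 4, 1, 3]⟩,
    ⟨[1, 1, 1, 1, 2], 0, true, [0, 3, 4, 1, 2]⟩,
    ⟨[1, 1, -1, 0, -1], 0, true, [1, 2, 3, 4, 0]⟩,
    ⟨[1, 1, 2, 1, 1], 0, true, [0, 1, 2, 4, 3]⟩,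
    ⟨[1, 1, 1, 0, 2], 0, true, [0, 1, 3, 4, 2]⟩,
    ⟨[1, 1, 1, 0, 0], 0, true, [0, 2, 4, 3, 1]⟩,
    ⟨[1, 1, 0, -1, 1], 0, true, [0, 3, 4, 2, 1]⟩,
    ⟨[1, 1, 1, 2, 0], 0, true, [0, 1, 4, 2, 3]⟩,
    ⟨[1, 1, 0, 1, 1], 0, true, [0, 1, 4, 3, 2]⟩,
    ⟨[1, 1, 0, 1, -1], 0, true, [1, 2, 4, 3, 0]⟩,
    ⟨[1, 1, -1, 0, 0], 0, true, [1, 3, 4, 2, 0]⟩]⟩,
  ⟨![0, 1, 2, 3, 5],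
    [[-4], [-2], [-2, -1, 1], [-2, 0, 1], [0, -1, 0, 1]], [
    ⟨[2, 1, 1, 1, 0], 0, true, [0, 1, 2, 3, 4]⟩,
    ⟨[2, 1, 1, 0, 1], 0, true, [0, 1, 2, 3, 4]⟩]⟩]

set_option maxRecDepth 100000 in
theorem dataC_ok : ∀ d ∈ dataC, Function.Injective d.f ∧ d.C = cfl (W6 rC) d.f ∧
    (∀ b ∈ labels, b ∈ d.L ∨ alive [1] d.C b = false) ∧ (∀ b ∈ d.L, b ∈ labels) := by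
  decide +kernel

set_option maxRecDepth 100000 in
theorem runC : srch (accS solsC) [1] dataC [] [] [] = true := by decide +kernel

end Pool.Agent.Y734.M.KSIX
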