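import Pool.Agent.Y734.M.Stms

/-!
# Weights on the edges of `K₆` and `K₇`: the verified search
-/

set_option autoImplicit false

namespace Pool.Agent.Y734.M.KSIX

open Pool.Agent.Y734.M

/-! ## Linear forms -/

/-- the value of a linear form with a list of coefficients -/
def evl : List ℤ → (ℕ → ℤ) → ℤ
  | [], _ => 0
  | a :: l, x => a * x 0 + evl l (fun n => x (n + 1))

theorem evl_map (g : ℤ) (l : List ℤ) (x : ℕ → ℤ) : evl (l.map fun a => g * a) x = g * evl l x := by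
  induction l generalizing x with
  | nil => simp [evl]
  | cons a l ih =>
    simp only [List.map_cons, evl, ih]
    ring

/-- linear combinations -/
def lin (a b : ℤ) : List ℤ → List ℤ → List ℤ
  | [], m => m.map fun y => b * y
  | x :: l, [] => (x :: l).map fun y => a * y
  | x :: l, y :: m => (a * x + b * y) :: lin a b l m

theorem evl_lin (a b : ℤ) (l m : List ℤ) (x : ℕ → ℤ) :
    evl (lin a b l m) x = a * evl l x + b * evl m x := by
  induction l generalizing m x with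
  | nil =>
    rw [lin, evl_map, evl]
    ring
  | cons y l ih =>
    cases m with
    | nil =>
      rw [lin, evl_map]
      simp only [evl]
      ring
    | cons z m =>
      simp only [lin, evl, ih]
      ring

theorem evl_zero (l : List ℤ) (h : l.all (fun a => decide (a = 0)) = true) (x : ℕ → ℤ) :
    evl l x = 0 := by
  induction l generalizing x with
  | nil => rfl
  | cons a l ih =>
    rw [List.all_cons, Bool.and_eq_true, decide_eq_true_eq] at h
    rw [evl, h.1, ih h.2]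
    ring

/-- reduction by a basis -/
def red : List (ℕ × List ℤ) → List ℤ → List ℤ
  | [], l => l
  | b :: B, l => red B (if l.getD b.1 0 = 0 then l else
      lin (b.2.getD b.1 0) (-(l.getD b.1 0)) l b.2)

/-- all forms of the basis vanish at `x` -/
def Z (B : List (ℕ × List ℤ)) (x : ℕ → ℤ) : Prop :=
  ∀ b ∈ B, b.2.getD b.1 0 ≠ 0 ∧ evl b.2 x = 0

theorem evl_red (B : List (ℕ × List ℤ)) (x : ℕ → ℤ) (hB : Z B x) (l : List ℤ) :
    ∃ m : ℤ, m ≠ 0 ∧ evl (red B l) x = m * evl l x := by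
  induction B generalizing l with
  | nil => exact ⟨1, one_ne_zero, (one_mul _).symm⟩
  | cons b B ih =>
    have hb := hB b List.mem_cons_self
    have hB' : Z B x := fun c hc => hB c (List.mem_cons_of_mem _ hc)
    obtain ⟨m, hm, h⟩ := ih hB' (if l.getD b.1 0 = 0 then l else
      lin (b.2.getD b.1 0) (-(l.getD b.1 0)) l b.2)
    rw [red, h]
    split_ifs with h1
    · exact ⟨m, hm, rfl⟩
    · refine ⟨m * b.2.getD b.1 0, mul_ne_zero hm hb.1, ?_⟩
      rw [evl_lin, hb.2]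
      ring

/-- the form vanishes as a consequence of the basis -/
def isz (B : List (ℕ × List ℤ)) (l : List ℤ) : Bool := (red B l).all fun a => decide (a = 0)

theorem isz_sound {B : List (ℕ × List ℤ)} {x : ℕ → ℤ} (hB : Z B x) {l : List ℤ}
    (h : isz B l = true) : evl l x = 0 := by
  obtain ⟨m, hm, h1⟩ := evl_red B x hB l
  rw [evl_zero _ h] at h1
  rcases mul_eq_zero.mp h1.symm with h2 | h2
  · exact absurd h2 hm
  · exact h2

/-- a new equation -/
def addE (B : List (ℕ × List ℤ)) (l : List ℤ) : List (ℕ × List ℤ) :=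
  let l' := red B l
  let i := l'.findIdx (fun a => decide (a ≠ 0))
  if l'.getD i 0 = 0 then B else B ++ [(i, l')]

theorem addE_sound {B : List (ℕ × List ℤ)} {x : ℕ → ℤ} (hB : Z B x) {l : List ℤ}
    (h : evl l x = 0) : Z (addE B l) x := by
  unfold addE
  simp only
  split_ifs with h1
  · exact hB
  · intro b hb
    rcases List.mem_append.mp hb with hb | hb
    · exact hB b hb
    · rw [List.mem_singleton] at hb
      subst hb
      refine ⟨h1, ?_⟩
      obtain ⟨m, _, h2⟩ := evl_red B x hB l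
      rw [h2, h, mul_zero]

/-- several new equations; `none` if `N` vanishes -/
def adds (N : List ℤ) : List (List ℤ) → List (ℕ × List ℤ) → Option (List (ℕ × List ℤ))
  | [], B => some B
  | l :: L, B =>
    let B' := addE B l
    if isz B' N then none else adds N L B'

theorem adds_sound {N : List ℤ} {x : ℕ → ℤ} (hN : evl N x ≠ 0) (L : List (List ℤ))
    (hL : ∀ l ∈ L, evl l x = 0) (B : List (ℕ × List ℤ)) (hB : Z B x) :
    ∃ B', adds N L B = some B' ∧ Z B' x := by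
  induction L generalizing B with
  | nil => exact ⟨B, rfl, hB⟩
  | cons l L ih =>
    have h1 := addE_sound hB (hL l List.mem_cons_self)
    rw [adds]
    rw [if_neg]
    · exact ih (fun l hl => hL l (List.mem_cons_of_mem _ hl)) _ h1
    · exact fun h => hN (isz_sound h1 h)

/-! ## Labels -/

/-- five independent cross exponents -/
def crl (u : Fin 5 → Fin 5 → ℤ) : List ℤ := [
  (u 0 1 + u 2 3) - (u 0 2 + u 1 3),
  (u 0 1 + u 2 3) - (u 0 3 + u 1 2),
  (u 0 1 + u 2 4) - (u 0 2 + u 1 4),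
  (u 0 1 + u 2 4) - (u 0 4 + u 1 2),
  (u 0 1 + u 3 4) - (u 0 3 + u 1 4)]

/-- a label: the cross exponents up to a factor -/
structure Lb where
  /-- the cross exponents -/
  l : List ℤ
  /-- the index of a nonzero one -/
  i : ℕ
  /-- nonzero -/
  ray : Bool
  /-- the involution -/
  fact : List (Fin 5)
  deriving DecidableEq

/-- the sixty-one labels -/
def labels : List Lb := [
  ⟨[0, 0, 0, 0, 0], 0, false, []⟩,
  ⟨[1, 1, 0, 1, 0], 0, true, []⟩,
  ⟨[0, 1, 1, 1, 1], 1, true, []⟩,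
  ⟨[1, 0, 1, 0, 1], 0, true, []⟩,
  ⟨[1, 0, 0, -1, 0], 0, true, []⟩,
  ⟨[0, 1, -1, 0, 0], 1, true, []⟩,
  ⟨[1, 1, 1, 1, 0], 0, true, []⟩,
  ⟨[0, 1, 0, 0, 0], 1, true, []⟩,
  ⟨[1, 0, 0, 0, -1], 0, true, []⟩,
  ⟨[1, 1, 0, 0, 1], 0, true, []⟩,
  ⟨[0, 0, 0, 1, -1], 3, true, []⟩,
  ⟨[0, 0, 1, 0, 0], 2, true, []⟩,
  ⟨[0, 0, 1, 1, 1], 2, true, []⟩,
  ⟨[1, 1, 1, 0, 1], 0, true, []⟩,
  ⟨[1, 0, 1, 1, 0], 0, true, []⟩,
  ⟨[0, 1, 0, 1, 1], 1, true, []⟩,
  ⟨[0, 2, 0, 1, 1], 1, true, [0, 1, 2, 3, 4]⟩,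
  ⟨[0, 1, 0, 2, 0], 1, true, [0, 1, 2, 4, 3]⟩,
  ⟨[2, 0, 1, 0, 0], 0, true, [0, 1, 3, 2, 4]⟩,
  ⟨[1, 0, 0, 1, 0], 0, true, [0, 1, 3, 4, 2]⟩,
  ⟨[1, 0, 2, 0, 1], 0, true, [0, 1, 4, 2, 3]⟩,
  ⟨[0, 1, 1, 0, 2], 1, true, [0, 1, 4, 3, 2]⟩,
  ⟨[2, 2, 1, 1, 1], 0, true, [0, 2, 3, 1, 4]⟩,
  ⟨[1, 1, 0, -1, 0], 0, true, [0, 2, 3, 4, 1]⟩,
  ⟨[1, 1, 2, 2, 1], 0, true, [0, 2, 4, 1, 3]⟩,
  ⟨[0, 1, -1, -1, 1], 1, true, [0, 2, 4, 3, 1]⟩,
  ⟨[1, 1, 1, 1, 2], 0, true, [0, 3, 4, 1, 2]⟩,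
  ⟨[1, 0, 1, 0, -1], 0, true, [0, 3, 4, 2, 1]⟩,
  ⟨[1, 1, -1, 0, -1], 0, true, [1, 2, 3, 4, 0]⟩,
  ⟨[1, 0, -1, -1, 0], 0, true, [1, 2, 4, 3, 0]⟩,
  ⟨[0, 1, 0, 1, -1], 1, true, [1, 3, 4, 2, 0]⟩,
  ⟨[2, 1, 1, 1, 0], 0, true, [0, 1, 2, 3, 4]⟩,
  ⟨[1, 1, 2, 1, 1], 0, true, [0, 1, 2, 4, 3]⟩,
  ⟨[1, 2, 0, 1, 1], 0, true, [0, 1, 3, 2, 4]⟩,
  ⟨[1, 1, 1, 0, 2], 0, true, [0, 1, 3, 4, 2]⟩,
  ⟨[0, 1, 1, 2, 1], 1, true, [0, 1, 4, 2, 3]⟩,
  ⟨[1, 0, 1, 1, 1], 0, true, [0, 1, 4, 3, 2]⟩,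
  ⟨[2, 1, 1, 0, 1], 0, true, [0, 1, 2, 3, 4]⟩,
  ⟨[1, 0, 2, 1, 1], 0, true, [0, 1, 2, 4, 3]⟩,
  ⟨[1, -1, 0, -1, -1], 0, true, [0, 2, 3, 1, 4]⟩,
  ⟨[1, 0, 1, 1, -1], 0, true, [0, 2, 3, 4, 1]⟩,
  ⟨[0, 1, -1, 1, 0], 1, true, [0, 2, 4, 1, 3]⟩,
  ⟨[1, 1, 1, 0, 0], 0, true, [0, 2, 4, 3, 1]⟩,
  ⟨[1, 2, 1, 1, 1], 0, true, [0, 1, 3, 2, 4]⟩,
  ⟨[0, 1, 1, 1, 2], 1, true, [0, 1, 3, 4, 2]⟩,
  ⟨[1, -1, 1, 0, 0], 0, true, [0, 2, 3, 1, 4]⟩,
  ⟨[0, 1, -1, 0, 1], 1, true, [0, 2, 3, 4, 1]⟩,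
  ⟨[1, 0, 0, 1, -1], 0, true, [0, 3, 4, 1, 2]⟩,
  ⟨[1, 1, 0, -1, 1], 0, true, [0, 3, 4, 2, 1]⟩,
  ⟨[1, 1, 1, 2, 0], 0, true, [0, 1, 4, 2, 3]⟩,
  ⟨[1, 1, 0, 1, 1], 0, true, [0, 1, 4, 3, 2]⟩,
  ⟨[1, 0, 1, -1, 1], 0, true, [0, 2, 4, 1, 3]⟩,
  ⟨[1, 0, 0, -1, -1], 0, true, [0, 2, 4, 3, 1]⟩,
  ⟨[0, 1, 1, 0, 1], 1, true, [0, 3, 4, 1, 2]⟩,
  ⟨[0, 1, -1, -1, 0], 1, true, [0, 3, 4, 2, 1]⟩,
  ⟨[0, 1, 1, 1, 0], 1, true, [1, 2, 3, 4, 0]⟩,
  ⟨[1, 1, 0, 1, -1], 0, true, [1, 2, 4, 3, 0]⟩,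
  ⟨[1, 0, 0, -1, 1], 0, true, [1, 2, 3, 4, 0]⟩,
  ⟨[1, 1, -1, 0, 0], 0, true, [1, 3, 4, 2, 0]⟩,
  ⟨[0, 1, -1, 0, -1], 1, true, [1, 2, 4, 3, 0]⟩,
  ⟨[1, 0, -1, -1, -1], 0, true, [1, 3, 4, 2, 0]⟩]

/-- the canonical tuple of an involution -/
def can (p : Fin 5 → Fin 5) : List (Fin 5) :=
  if p 3 < p 0 then
    (if p 2 < p 1 then (if p 2 < p 3 then [p 2, p 3, p 0, p 1, p 4] else [p 3, p 2, p 1, p 0, p 4])
    else (if p 1 < p 3 then [p 1, p 3, p 0, p 2, p 4] else [p 3, p 1, p 2, p 0, p 4]))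
  else
    (if p 2 < p 1 then (if p 2 < p 0 then [p 2, p 0, p 3, p 1, p 4] else [p 0, p 2, p 1, p 3, p 4])
    else (if p 1 < p 0 then [p 1, p 0, p 3, p 2, p 4] else [p 0, p 1, p 2, p 3, p 4]))

/-- the property `E` of a list of five points -/
def EL {α : Type} (E : (Fin 5 → α) → Prop) : List α → Prop
  | [a, b, c, d, m] => E ![a, b, c, d, m]
  | _ => False

theorem vec_eta {α : Type} (p : Fin 5 → α) : ![p 0, p 1, p 2, p 3, p 4] = p := by
  funext i
  fin_cases i <;> rfl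

theorem can_sound {α : Type} (E : (Fin 5 → α) → Prop)
    (h1 : ∀ p : Fin 5 → α, E p → E ![p 3, p 1, p 2, p 0, p 4])
    (h2 : ∀ p : Fin 5 → α, E p → E ![p 1, p 0, p 3, p 2, p 4]) (f : Fin 5 → α)
    (p : Fin 5 → Fin 5) (h : E (f ∘ p)) : EL E ((can p).map f) := by
  have h1' : ∀ a b c d m : α, E ![a, b, c, d, m] → E ![d, b, c, a, m] :=
    fun a b c d m h => h1 ![a, b, c, d, m] h
  have h2' : ∀ a b c d m : α, E ![a, b, c, d, m] → E ![b, a, d, c, m] :=
    fun a b c d m h => h2 ![a, b, c, d, m] h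
  have h3 : E ![f (p 0), f (p 1), f (p 2), f (p 3), f (p 4)] := by
    rw [← vec_eta (f ∘ p)] at h
    exact h
  have h4 : ∀ a b c d m : α, E ![a, b, c, d, m] → E ![a, c, b, d, m] :=
    fun a b c d m h => h2' _ _ _ _ _ (h1' _ _ _ _ _ (h2' _ _ _ _ _ h))
  unfold can
  split_ifs
  · exact h2' _ _ _ _ _ (h4 _ _ _ _ _ (h1' _ _ _ _ _ h3))
  · exact h4 _ _ _ _ _ (h1' _ _ _ _ _ h3)
  · exact h2' _ _ _ _ _ (h1' _ _ _ _ _ h3)
  · exact h1' _ _ _ _ _ h3
  · exact h2' _ _ _ _ _ (h4 _ _ _ _ _ h3)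
  · exact h4 _ _ _ _ _ h3
  · exact h2' _ _ _ _ _ h3
  · exact h3

/-- the label is satisfied -/
def Sat {n : ℕ} (w : Fin n → Fin n → ℤ) (E : (Fin 5 → Fin n) → Prop) (f : Fin 5 → Fin n)
    (b : Lb) : Prop :=
  ∃ κ : ℤ, (b.ray = true → κ ≠ 0) ∧ crl (pull w f) = b.l.map (fun a => κ * a) ∧
    (b.fact ≠ [] → EL E (b.fact.map f))

/-- `labels` contains the label of the ray `r` in the order `σ` -/
def okl (r : Fin 5 → Fin 5 → ℤ) (t : Bool) (σ : Equiv.Perm (Fin 5)) : Bool :=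
  labels.any fun b => decide ((crl (pull r σ.symm) = b.l ∨
    crl (pull r σ.symm) = b.l.map fun a => -a) ∧
    b.ray = true ∧ b.fact = if t = true then can σ else [])

set_option maxRecDepth 100000 in
theorem okA : ∀ σ, okl rA false σ = true := by decide +kernel

set_option maxRecDepth 100000 in
theorem okB : ∀ σ, okl rB true σ = true := by decide +kernel

set_option maxRecDepth 100000 in
theorem okC : ∀ σ, okl rC true σ = true := by decide +kernel

theorem crl_ray {r u : Fin 5 → Fin 5 → ℤ} {σ : Equiv.Perm (Fin 5)} (h : Ray r (pull u σ)) :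
    ∃ k : ℤ, k ≠ 0 ∧ crl u = (crl (pull r σ.symm)).map fun a => k * a := by
  obtain ⟨k, s, hk, h⟩ := h
  refine ⟨k, hk, ?_⟩
  have h1 : ∀ a b : Fin 5, a ≠ b →
      2 * u a b = 2 * (k * pull r σ.symm a b) + s (σ.symm a) + s (σ.symm b) := by
    intro a b hab
    have h2 := h (σ.symm a) (σ.symm b) (fun h => hab (σ.symm.injective h))
    unfold pull at h2 ⊢
    rw [σ.apply_symm_apply, σ.apply_symm_apply] at h2
    linarith
  have h01 := h1 0 1 (by decide)
  have h23 := h1 2 3 (by decide)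
  have h02 := h1 0 2 (by decide)
  have h13 := h1 1 3 (by decide)
  have h03 := h1 0 3 (by decide)
  have h12 := h1 1 2 (by decide)
  have h24 := h1 2 4 (by decide)
  have h14 := h1 1 4 (by decide)
  have h04 := h1 0 4 (by decide)
  have h34 := h1 3 4 (by decide)
  unfold crl
  simp only [List.map_cons, List.map_nil, List.cons.injEq, and_true]
  refine ⟨?_, ?_, ?_, ?_, ?_⟩ <;> linarith

theorem crl_tri {u : Fin 5 → Fin 5 → ℤ} (h : Tri0 u) (hs : Sy u) : crl u = [0, 0, 0, 0, 0] := by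
  have h1 : ∀ a b c d : Fin 5, Function.Injective ![a, b, c, d] →
      u a b + u c d = u a c + u b d := fun a b c d hi => h ![a, b, c, d] hi
  unfold crl
  simp only [List.cons.injEq, and_true]
  refine ⟨?_, ?_, ?_, ?_, ?_⟩
  · linarith [h1 0 1 2 3 (by decide)]
  · linarith [h1 0 1 3 2 (by decide), hs 2 3]
  · linarith [h1 0 1 2 4 (by decide)]
  · linarith [h1 0 1 4 2 (by decide), hs 2 4]
  · linarith [h1 0 1 3 4 (by decide)]

/-- the condition for the five points `f` -/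
def Cond {n : ℕ} (e : Fin n → Fin n → ℤ) (E : (Fin 5 → Fin n) → Prop) (f : Fin 5 → Fin n) : Prop :=
  Tri0 (pull e f) ∨ ∃ σ : Equiv.Perm (Fin 5),
      Ray rA (pull e (f ∘ σ)) ∨
        ((Ray rB (pull e (f ∘ σ)) ∨ Ray rC (pull e (f ∘ σ))) ∧ E (f ∘ σ))

theorem sat_of {n : ℕ} {e w : Fin n → Fin n → ℤ} {E : (Fin 5 → Fin n) → Prop} {f : Fin 5 → Fin n}
    (hs : Sy e) (h1 : ∀ p : Fin 5 → Fin n, E p → E ![p 3, p 1, p 2, p 0, p 4])
    (h2 : ∀ p : Fin 5 → Fin n, E p → E ![p 1, p 0, p 3, p 2, p 4])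
    (hw : crl (pull w f) = (crl (pull e f)).map fun a => 2 * a) (h : Cond e E f) :
    ∃ b ∈ labels, Sat w E f b := by
  have key : ∀ (r : Fin 5 → Fin 5 → ℤ) (t : Bool) (σ : Equiv.Perm (Fin 5)), okl r t σ = true →
      Ray r (pull e (f ∘ σ)) → (t = true → E (f ∘ σ)) → ∃ b ∈ labels, Sat w E f b := by
    intro r t σ hok hr hE
    unfold okl at hok
    rw [List.any_eq_true] at hok
    obtain ⟨b, hb, hb'⟩ := hok
    rw [decide_eq_true_eq] at hb'
    obtain ⟨hb1, hb2, hb3⟩ := hb'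
    obtain ⟨k, hk, hk'⟩ := crl_ray (u := pull e f) (σ := σ) hr
    have hfact : b.fact ≠ [] → EL E (b.fact.map f) := by
      intro hne
      rw [hb3] at hne ⊢
      split_ifs at hne ⊢ with ht
      · exact can_sound E h1 h2 f σ (hE ht)
      · exact absurd rfl hne
    rcases hb1 with hb1 | hb1
    · refine ⟨b, hb, 2 * k, fun _ => mul_ne_zero two_ne_zero hk, ?_, hfact⟩
      rw [hw, hk', hb1, List.map_map]
      congr 1
      funext a
      simp only [Function.comp_apply]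
      ring
    · refine ⟨b, hb, -(2 * k), fun _ => neg_ne_zero.mpr (mul_ne_zero two_ne_zero hk), ?_, hfact⟩
      rw [hw, hk', hb1, List.map_map, List.map_map]
      congr 1
      funext a
      simp only [Function.comp_apply]
      ring
  rcases h with h | ⟨σ, h | ⟨h | h, h'⟩⟩
  · refine ⟨⟨[0, 0, 0, 0, 0], 0, false, []⟩, List.mem_cons_self, 0, fun h => ?_, ?_,
      fun h => absurd rfl h⟩
    · exact absurd h (by decide)
    · rw [hw, crl_tri h (fun i j => hs _ _)]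
      simp
  · exact key rA false σ (okA σ) h (fun h => absurd h (by decide))
  · exact key rB true σ (okB σ) h fun _ => h'
  · exact key rC true σ (okC σ) h fun _ => h'

/-! ## The search -/

/-- the forms of the cross exponents -/
def cfl {n : ℕ} (W : Fin n → Fin n → List ℤ) (f : Fin 5 → Fin n) : List (List ℤ) := [
  lin 1 (-1) (lin 1 1 (W (f 0) (f 1)) (W (f 2) (f 3))) (lin 1 1 (W (f 0) (f 2)) (W (f 1) (f 3))),
  lin 1 (-1) (lin 1 1 (W (f 0) (f 1)) (W (f 2) (f 3))) (lin 1 1 (W (f 0) (f 3)) (W (f 1) (f 2))),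
  lin 1 (-1) (lin 1 1 (W (f 0) (f 1)) (W (f 2) (f 4))) (lin 1 1 (W (f 0) (f 2)) (W (f 1) (f 4))),
  lin 1 (-1) (lin 1 1 (W (f 0) (f 1)) (W (f 2) (f 4))) (lin 1 1 (W (f 0) (f 4)) (W (f 1) (f 2))),
  lin 1 (-1) (lin 1 1 (W (f 0) (f 1)) (W (f 3) (f 4))) (lin 1 1 (W (f 0) (f 3)) (W (f 1) (f 4)))]

theorem evl_cfl {n : ℕ} {W : Fin n → Fin n → List ℤ} {w : Fin n → Fin n → ℤ} {x : ℕ → ℤ}
    (hW : ∀ i j, i ≠ j → evl (W i j) x = w i j) {f : Fin 5 → Fin n} (hf : Function.Injective f) :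
    (cfl W f).map (fun l => evl l x) = crl (pull w f) := by
  have h : ∀ a b, a ≠ b → evl (W (f a) (f b)) x = pull w f a b :=
    fun a b hab => hW _ _ fun h => hab (hf h)
  unfold cfl crl
  simp only [List.map_cons, List.map_nil, List.cons.injEq, and_true, evl_lin]
  rw [h 0 1 (by decide), h 2 3 (by decide), h 0 2 (by decide), h 1 3 (by decide),
    h 0 3 (by decide), h 1 2 (by decide), h 2 4 (by decide), h 1 4 (by decide),
    h 0 4 (by decide), h 3 4 (by decide)]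
  refine ⟨?_, ?_, ?_, ?_, ?_⟩ <;> ring

/-- the equations of a label -/
def eqs (C : List (List ℤ)) (b : Lb) : List (List ℤ) :=
  if b.ray = true then
    List.zipWith (fun c m => lin (b.l.getD b.i 0) (-m) c (C.getD b.i [])) C b.l
  else C

/-- the labels are normalised -/
theorem labels_ok : ∀ b ∈ labels, (b.ray = true → b.l.getD b.i 0 ≠ 0) ∧
    (b.ray = false → ∀ m ∈ b.l, m = 0) := by
  decide +kernel

theorem getD_of {x : ℕ → ℤ} {κ : ℤ} (C : List (List ℤ)) (L : List ℤ)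
    (h : C.map (fun l => evl l x) = L.map fun a => κ * a) (i : ℕ) :
    evl (C.getD i []) x = κ * L.getD i 0 := by
  induction C generalizing L i with
  | nil =>
    cases L with
    | nil => simp [evl]
    | cons m L => simp at h
  | cons c C ih =>
    cases L with
    | nil => simp at h
    | cons m L =>
      simp only [List.map_cons, List.cons.injEq] at h
      cases i with
      | zero => simpa using h.1
      | succ i => simpa using ih L h.2 i

theorem zip_of {x : ℕ → ℤ} {κ a : ℤ} {c₀ : List ℤ} (h₀ : evl c₀ x = κ * a) (C : List (List ℤ))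
    (L : List ℤ) (h : C.map (fun l => evl l x) = L.map fun a => κ * a) :
    ∀ l ∈ List.zipWith (fun c m => lin a (-m) c c₀) C L, evl l x = 0 := by
  induction C generalizing L with
  | nil => simp
  | cons c C ih =>
    cases L with
    | nil => simp
    | cons m L =>
      simp only [List.map_cons, List.cons.injEq] at h
      intro l hl
      rw [List.zipWith_cons_cons, List.mem_cons] at hl
      rcases hl with rfl | hl
      · rw [evl_lin, h.1, h₀]
        ring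
      · exact ih L h.2 l hl

theorem eqs_sound {n : ℕ} {w : Fin n → Fin n → ℤ} {x : ℕ → ℤ} {f : Fin 5 → Fin n}
    {C : List (List ℤ)} (hC : C.map (fun l => evl l x) = crl (pull w f)) {b : Lb}
    (hb : b ∈ labels) {κ : ℤ} (hj : crl (pull w f) = b.l.map (fun a => κ * a)) :
    ∀ l ∈ eqs C b, evl l x = 0 := by
  have h := hC.trans hj
  intro l hl
  unfold eqs at hl
  split_ifs at hl with hr
  · exact zip_of (getD_of C b.l h b.i) C b.l h l hl
  · have h1 : evl l x ∈ C.map (fun l => evl l x) := List.mem_map_of_mem hl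
    rw [h, List.mem_map] at h1
    obtain ⟨m, hm, h2⟩ := h1
    rw [← h2, (labels_ok b hb).2 (by simpa using hr) m hm, mul_zero]

/-- the data of five points: the forms of the cross exponents, and the possible labels -/
structure Fd (n : ℕ) where
  /-- the five points -/
  f : Fin 5 → Fin n
  /-- the forms -/
  C : List (List ℤ)
  /-- the labels -/
  L : List Lb

/-- the label is possible at the root -/
def alive (N : List ℤ) (C : List (List ℤ)) (b : Lb) : Bool :=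
  match adds N (eqs C b) [] with
  | none => false
  | some B => !(b.ray && isz B (C.getD b.i []))

/-- the data are correct -/
def Fd.Good {n : ℕ} (W : Fin n → Fin n → List ℤ) (N : List ℤ) (d : Fd n) : Prop :=
  d.C = cfl W d.f ∧ (∀ b ∈ labels, b ∈ d.L ∨ alive N d.C b = false) ∧ (∀ b ∈ d.L, b ∈ labels)

theorem nz_of {n : ℕ} {w : Fin n → Fin n → ℤ} {x : ℕ → ℤ} {f : Fin 5 → Fin n}
    {C : List (List ℤ)} (hC : C.map (fun l => evl l x) = crl (pull w f)) {b : Lb}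
    (hb : b ∈ labels) {κ : ℤ} (hκ : b.ray = true → κ ≠ 0)
    (hj : crl (pull w f) = b.l.map (fun a => κ * a)) (hr : b.ray = true) :
    evl (C.getD b.i []) x ≠ 0 := by
  rw [getD_of C b.l (hC.trans hj) b.i]
  exact mul_ne_zero (hκ hr) ((labels_ok b hb).1 hr)

theorem alive_of {n : ℕ} {w : Fin n → Fin n → ℤ} {x : ℕ → ℤ} {f : Fin 5 → Fin n}
    {N : List ℤ} (hN : evl N x ≠ 0)
    {C : List (List ℤ)} (hC : C.map (fun l => evl l x) = crl (pull w f)) {b : Lb}
    (hb : b ∈ labels) {E : (Fin 5 → Fin n) → Prop} (h : Sat w E f b) : alive N C b = true := by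
  obtain ⟨κ, hκ, hj, _⟩ := h
  obtain ⟨B, hB, hZ⟩ := adds_sound hN _ (eqs_sound hC hb hj) [] (fun b hb => absurd hb (by simp))
  unfold alive
  rw [hB]
  simp only
  rw [Bool.not_eq_true', Bool.and_eq_false_iff]
  by_cases hr : b.ray = true
  · right
    by_contra h
    rw [Bool.not_eq_false] at h
    exact nz_of hC hb hκ hj hr (isz_sound hZ h)
  · left
    simpa using hr

/-- the search; `N` is a form which does not vanish, `NZ` are further such forms, `fs` the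
involutions found so far -/
def srch {n : ℕ} (acc : List (ℕ × List ℤ) → List (List (Fin n)) → Bool) (N : List ℤ) :
    List (Fd n) → List (ℕ × List ℤ) → List (List ℤ) → List (List (Fin n)) → Bool
  | [], B, _, fs => acc B fs
  | d :: rem, B, NZ, fs => d.L.all fun b =>
      match adds N (eqs d.C b) B with
      | none => true
      | some B' =>
        (if b.ray = true then d.C.getD b.i [] :: NZ else NZ).any (isz B') ||
          srch acc N rem B' (if b.ray = true then d.C.getD b.i [] :: NZ else NZ)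
            (if b.fact = [] then fs else b.fact.map d.f :: fs)

theorem srch_sound {n : ℕ} {acc : List (ℕ × List ℤ) → List (List (Fin n)) → Bool}
    {W : Fin n → Fin n → List ℤ}
    {w : Fin n → Fin n → ℤ} {x : ℕ → ℤ} {E : (Fin 5 → Fin n) → Prop}
    (hW : ∀ i j, i ≠ j → evl (W i j) x = w i j) {N : List ℤ} (hN : evl N x ≠ 0) {P : Prop}
    (hacc : ∀ B fs, Z B x → (∀ l ∈ fs, EL E l) → acc B fs = true → P) (rem : List (Fd n))
    (hrem : ∀ d ∈ rem, Function.Injective d.f ∧ d.Good W N ∧ ∃ b ∈ labels, Sat w E d.f b) :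
    ∀ (B : List (ℕ × List ℤ)) (NZ : List (List ℤ)) (fs : List (List (Fin n))), Z B x →
      (∀ l ∈ NZ, evl l x ≠ 0) → (∀ l ∈ fs, EL E l) → srch acc N rem B NZ fs = true → P := by
  induction rem with
  | nil => exact fun B NZ fs hB _ hfs h => hacc B fs hB hfs h
  | cons d rem ih =>
    intro B NZ fs hB hNZ hfs h
    obtain ⟨hf, ⟨hC, hL, hL'⟩, b, hb, hSat⟩ := hrem d List.mem_cons_self
    have hC' : d.C.map (fun l => evl l x) = crl (pull w d.f) := by
      rw [hC]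
      exact evl_cfl hW hf
    have hbL : b ∈ d.L := by
      rcases hL b hb with h1 | h1
      · exact h1
      · rw [alive_of hN hC' hb hSat] at h1
        exact absurd h1 (by decide)
    obtain ⟨κ, hκ, hj, hE⟩ := hSat
    rw [srch, List.all_eq_true] at h
    have h1 := h b hbL
    obtain ⟨B', hB', hZ⟩ := adds_sound hN _ (eqs_sound hC' hb hj) B hB
    rw [hB'] at h1
    simp only at h1
    have hNZ' : ∀ l ∈ (if b.ray = true then d.C.getD b.i [] :: NZ else NZ), evl l x ≠ 0 := by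
      intro l hl'
      split_ifs at hl' with hr
      · rcases List.mem_cons.mp hl' with rfl | hl'
        · exact nz_of hC' hb hκ hj hr
        · exact hNZ l hl'
      · exact hNZ l hl'
    rw [Bool.or_eq_true, List.any_eq_true] at h1
    rcases h1 with ⟨l, hl', hl''⟩ | h1
    · exact absurd (isz_sound hZ hl'') (hNZ' l hl')
    · refine ih (fun d hd => hrem d (List.mem_cons_of_mem _ hd)) B' _ _ hZ hNZ' ?_ h1
      intro l hl'
      split_ifs at hl' with hr
      · exact hfs l hl'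
      · rcases List.mem_cons.mp hl' with rfl | hl'
        · exact hE hr
        · exact hfs l hl'

end Pool.Agent.Y734.M.KSIX
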